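import Mathlib

set_option autoImplicit false

namespace Pool.Agent.Results.MP_04276e_nt.WellApproximableCoordinates

/-- If the fixed coordinates `α` themselves satisfy `‖n · α‖ < 1/(2H (log 2H)^k)`, `k = m + 2`, for
infinitely many integer vectors `n`, then the conclusion of the question holds for every value of
the last coordinate; in particular Q1 holds for all rationally dependent `1, α` and it remains
to treat the `α` for which the reversed inequality holds for all but finitely many `n`. -/
theorem result :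
    ∀ (m : ℕ) (α : Fin (m + 1) → ℝ),
      (Set.Infinite {n : Fin (m + 1) → ℤ |
          |(∑ i : Fin (m + 1), (n i : ℝ) * α i)
            - (round (∑ i : Fin (m + 1), (n i : ℝ) * α i) : ℝ)|
          < 1 / ((2 * ∏ i : Fin (m + 1), max |(n i : ℝ)| 2)
              * (Real.log (2 * ∏ i : Fin (m + 1), max |(n i : ℝ)| 2)) ^ (m + 2))}) →
      ∀ t : ℝ,
        Set.Infinite {n : Fin (m + 2) → ℤ |
          |(∑ i : Fin (m + 1), (n (Fin.castSucc i) : ℝ) * α i
              + (n (Fin.last (m + 1)) : ℝ) * t)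
            - (round (∑ i : Fin (m + 1), (n (Fin.castSucc i) : ℝ) * α i
              + (n (Fin.last (m + 1)) : ℝ) * t) : ℝ)|
          < 1 / ((∏ i : Fin (m + 2), max |(n i : ℝ)| 2)
              * (Real.log (∏ i : Fin (m + 2), max |(n i : ℝ)| 2)) ^ (m + 2))} := by
  intro m α h t
  have hinj : Function.Injective (fun n : Fin (m + 1) → ℤ =>
      (Fin.snoc n 0 : Fin (m + 2) → ℤ)) := by
    intro n n' he
    have h1 := congrArg Fin.init he
    simpa [Fin.init_snoc] using h1
  refine (h.image hinj.injOn).mono ?_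
  rintro _ ⟨n, hn, rfl⟩
  have h1 : ∏ i : Fin (m + 2), max |((Fin.snoc n 0 : Fin (m + 2) → ℤ) i : ℝ)| 2 =
      2 * ∏ i : Fin (m + 1), max |(n i : ℝ)| 2 := by
    rw [Fin.prod_univ_castSucc]
    simp only [Fin.snoc_castSucc, Fin.snoc_last]
    rw [mul_comm]
    simp
  have h2 : ∑ i : Fin (m + 1), (((Fin.snoc n 0 : Fin (m + 2) → ℤ) (Fin.castSucc i) : ℤ) : ℝ) * α i
      + (((Fin.snoc n 0 : Fin (m + 2) → ℤ) (Fin.last (m + 1)) : ℤ) : ℝ) * t =
      ∑ i : Fin (m + 1), (n i : ℝ) * α i := by
    simp only [Fin.snoc_castSucc, Fin.snoc_last]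
    simp
  rw [Set.mem_ofPred_eq, h1, h2]
  exact hn

end Pool.Agent.Results.MP_04276e_nt.WellApproximableCoordinates
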